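import Pool.Agent.TKP.F4

set_option autoImplicit false

namespace Pool.Agent.Results.MP_f8ddab_nt.ManyPrimes

/-- Let `a / b` and `c / d` be positive fractions in lowest terms which are multiplicatively
independent, or for which `a ^ k + b ^ k = c ^ k + d ^ k` with different pairs. Then every common
divisor `m` of `a ^ k + b ^ k` and `c ^ k + d ^ k` with `ω` different prime factors is at most
`C * M ^ (2 √(K k ω))`, where `M` is the largest of `a, b, c, d`, `C` depends only on `k` and `K`, and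
`K = 4` if `k` is odd or not divisible by `3`. Consequently, for fixed `k`, all but finitely many
numbers `N` with two different representations as a sum of two coprime `k`th powers have
`4 K ω(N) ≥ k`. -/
theorem result (k K : ℕ) (hk : 0 < k)
    (hK : (K = 4 ∧ (Odd k ∨ ¬ 3 ∣ k)) ∨ ∃ l, K = l + 1 ∧ 3 ≤ l ∧ Odd l ∧ Nat.Coprime l k) :
    (∃ C : ℝ, ∀ a b c d m : ℕ, 0 < a → 0 < b → 0 < c → 0 < d → Nat.Coprime a b →
      Nat.Coprime c d →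
      ((∀ u v : ℤ, ((a : ℚ) / b) ^ u = ((c : ℚ) / d) ^ v → u = 0 ∧ v = 0) ∨
        (a ^ k + b ^ k = c ^ k + d ^ k ∧ ¬((a = c ∧ b = d) ∨ (a = d ∧ b = c)))) →
      m ∣ a ^ k + b ^ k → m ∣ c ^ k + d ^ k →
      (m : ℝ) ≤ C * ((max (max a b) (max c d) : ℕ) : ℝ) ^
        (2 * Real.sqrt (K * k * m.primeFactors.card))) ∧
    {x : ℕ × ℕ × ℕ × ℕ | 0 < x.1 ∧ 0 < x.2.1 ∧ 0 < x.2.2.1 ∧ 0 < x.2.2.2 ∧
      Nat.Coprime x.1 x.2.1 ∧ Nat.Coprime x.2.2.1 x.2.2.2 ∧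
      x.1 ^ k + x.2.1 ^ k = x.2.2.1 ^ k + x.2.2.2 ^ k ∧
      ¬ ((x.1 = x.2.2.1 ∧ x.2.1 = x.2.2.2) ∨ (x.1 = x.2.2.2 ∧ x.2.1 = x.2.2.1)) ∧
      4 * K * (x.1 ^ k + x.2.1 ^ k).primeFactors.card < k}.Finite := by
  obtain ⟨ε, l, hA, hK4, hKl⟩ : ∃ (ε : ℤ) (l : ℕ), TKP.Adm k ε l ∧ 4 ≤ K ∧ l + 1 ≤ K := by
    rcases hK with ⟨rfl, h | h⟩ | ⟨l, rfl, h1, h2, h3⟩
    · exact ⟨-1, 2, Or.inl ⟨rfl, rfl, h⟩, le_rfl, by norm_num⟩
    · exact ⟨1, 3, Or.inr ⟨rfl, le_rfl, by decide, (Nat.prime_three.coprime_iff_not_dvd).2 h⟩,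
        le_rfl, le_rfl⟩
    · exact ⟨1, l, Or.inr ⟨rfl, h1, h2, h3⟩, by omega, le_rfl⟩
  obtain ⟨C, -, hC⟩ := TKP.bound_all k K l ε hk hA hK4 hKl
  exact ⟨⟨C, hC⟩, TKP.finite_few k K l ε hk hA hK4 hKl⟩

end Pool.Agent.Results.MP_f8ddab_nt.ManyPrimes
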