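import Mathlib

set_option autoImplicit false
set_option linter.unusedSimpArgs false

namespace Pool.Agent.Results.MP_f8ddab_nt.PrimeDividing

/-- `p ^ k` divides `b ^ k - d ^ k` once the two other terms are multiples of `p ^ k`. -/
theorem dvd_sub_pow (p k b d X Y : ℕ) (hX : p ^ k ∣ X) (hY : p ^ k ∣ Y)
    (h : X + b ^ k = Y + d ^ k) (hdb : d < b) : p ^ k ∣ b ^ k - d ^ k := by
  have hle : d ^ k ≤ b ^ k := Nat.pow_le_pow_left hdb.le k
  have hXY : X ≤ Y := by omega
  have : b ^ k - d ^ k = Y - X := by omega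
  rw [this]
  exact Nat.dvd_sub hY hX

theorem core_odd (p k b d X Y : ℕ) (hp : p.Prime) (hp2 : p ≠ 2) (hk : 2 ≤ k)
    (hpk : (p - 1) ∣ k) (hX : p ^ k ∣ X) (hY : p ^ k ∣ Y)
    (h : X + b ^ k = Y + d ^ k) (hb : ¬ p ∣ b) (hd : ¬ p ∣ d) (hdb : d < b) :
    p ^ (k - padicValNat p k) < b ^ (p - 1) := by
  have : Fact p.Prime := ⟨hp⟩
  have hodd : Odd p := hp.odd_of_ne_two hp2
  have hdvd := dvd_sub_pow p k b d X Y hX hY h hdb
  obtain ⟨m, hm⟩ := hpk
  have hp1 : p - 1 ≠ 0 := by have := hp.two_le; omega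
  have hm0 : m ≠ 0 := by rintro rfl; omega
  have hlt : d ^ (p - 1) < b ^ (p - 1) := Nat.pow_lt_pow_left hdb hp1
  have hd0 : 0 < d := Nat.pos_of_ne_zero (by rintro rfl; exact hd (dvd_zero _))
  have hdpos : 0 < d ^ (p - 1) := pow_pos hd0 _
  have hfb : b ^ (p - 1) ≡ 1 [MOD p] := by
    have := Nat.ModEq.pow_totient ((Nat.Prime.coprime_iff_not_dvd hp).2 hb).symm
    rwa [Nat.totient_prime hp] at this
  have hfd : d ^ (p - 1) ≡ 1 [MOD p] := by
    have := Nat.ModEq.pow_totient ((Nat.Prime.coprime_iff_not_dvd hp).2 hd).symm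
    rwa [Nat.totient_prime hp] at this
  have hxy : p ∣ b ^ (p - 1) - d ^ (p - 1) :=
    (Nat.modEq_iff_dvd' hlt.le).1 (hfd.trans hfb.symm)
  have hx : ¬ p ∣ b ^ (p - 1) := fun hh => hb (hp.dvd_of_dvd_pow hh)
  have hv := padicValNat.pow_sub_pow (p := p) hodd hlt hxy hx hm0
  rw [← pow_mul, ← pow_mul, ← hm] at hv
  have hne : b ^ k - d ^ k ≠ 0 := by
    have := Nat.pow_lt_pow_left hdb (show k ≠ 0 by omega)
    omega
  have h1 : k ≤ padicValNat p (b ^ k - d ^ k) := (padicValNat_dvd_iff_le hne).1 hdvd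
  have hvm : padicValNat p m ≤ padicValNat p k := by
    rw [hm, padicValNat.mul hp1 hm0]
    omega
  have h2 : k - padicValNat p k ≤ padicValNat p (b ^ (p - 1) - d ^ (p - 1)) := by omega
  have hne2 : b ^ (p - 1) - d ^ (p - 1) ≠ 0 := by omega
  have h3 : p ^ (k - padicValNat p k) ∣ b ^ (p - 1) - d ^ (p - 1) :=
    (padicValNat_dvd_iff_le hne2).2 h2
  have h4 := Nat.le_of_dvd (by omega) h3
  omega

theorem core_even (k b d X Y : ℕ) (hk : 2 ≤ k) (hke : Even k)
    (hX : 2 ^ k ∣ X) (hY : 2 ^ k ∣ Y)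
    (h : X + b ^ k = Y + d ^ k) (hb : ¬ 2 ∣ b) (hd : ¬ 2 ∣ d) (hdb : d < b) :
    2 ^ (k + 1 - padicValNat 2 k) < b ^ 2 := by
  have hdvd := dvd_sub_pow 2 k b d X Y hX hY h hdb
  have hxy : 2 ∣ b - d := by omega
  have hv := padicValNat.pow_two_sub_pow hdb hxy hb (show k ≠ 0 by omega) hke
  have hne : b ^ k - d ^ k ≠ 0 := by
    have := Nat.pow_lt_pow_left hdb (show k ≠ 0 by omega)
    omega
  have h1 : k ≤ padicValNat 2 (b ^ k - d ^ k) := (padicValNat_dvd_iff_le hne).1 hdvd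
  have hd0 : 0 < d := Nat.pos_of_ne_zero (by rintro rfl; exact hd (dvd_zero _))
  have hmul : padicValNat 2 ((b + d) * (b - d)) = padicValNat 2 (b + d) + padicValNat 2 (b - d) :=
    padicValNat.mul (by omega) (by omega)
  have hpos : 0 < (b + d) * (b - d) := Nat.mul_pos (by omega) (by omega)
  have h2 : k + 1 - padicValNat 2 k ≤ padicValNat 2 ((b + d) * (b - d)) := by omega
  have h3 : 2 ^ (k + 1 - padicValNat 2 k) ∣ (b + d) * (b - d) :=
    (padicValNat_dvd_iff_le hpos.ne').2 h2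
  have h4 := Nat.le_of_dvd hpos h3
  have h5 : (b + d) * (b - d) = b ^ 2 - d ^ 2 := by
    rw [Nat.sq_sub_sq]
  have h6 : 0 < d ^ 2 := pow_pos hd0 2
  rw [h5] at h4
  have h7 : b ^ 2 - d ^ 2 < b ^ 2 := Nat.sub_lt (pow_pos (by omega) 2) h6
  omega

theorem core_two_odd (k b d X Y : ℕ) (hk : 2 ≤ k) (hko : Odd k)
    (hX : 2 ^ k ∣ X) (hY : 2 ^ k ∣ Y)
    (h : X + b ^ k = Y + d ^ k) (hb : ¬ 2 ∣ b) (hd : ¬ 2 ∣ d) (hdb : d < b) :
    2 ^ (k - 1) < b := by
  have hdvd := dvd_sub_pow 2 k b d X Y hX hY h hdb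
  have hcast : ((b ^ k - d ^ k : ℕ) : ℤ) = (b : ℤ) ^ k - (d : ℤ) ^ k := by
    rw [Nat.cast_sub (Nat.pow_le_pow_left hdb.le k)]; push_cast; ring
  have hZ : ((2 : ℤ)) ^ k ∣ (b : ℤ) ^ k - (d : ℤ) ^ k := by
    rw [← hcast]; exact_mod_cast hdvd
  have hxy : (2 : ℤ) ∣ (b : ℤ) - (d : ℤ) := by omega
  have hx : ¬ (2 : ℤ) ∣ (b : ℤ) := by omega
  have hn : ¬ (2 : ℤ) ∣ ((k : ℕ) : ℤ) := by
    obtain ⟨r, rfl⟩ := hko
    omega
  have he := emultiplicity_pow_sub_pow_of_prime (R := ℤ) Int.prime_two hxy hx hn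
  have h1 : ((2 : ℤ)) ^ k ∣ (b : ℤ) - (d : ℤ) := by
    rw [pow_dvd_iff_le_emultiplicity] at hZ ⊢
    rwa [he] at hZ
  have h2 : (2 : ℤ) ^ k ≤ (b : ℤ) - d := Int.le_of_dvd (by omega) h1
  have h3 : 2 ^ k ≤ b - d := by
    have : ((2 ^ k : ℕ) : ℤ) ≤ (b : ℤ) - d := by push_cast; exact h2
    omega
  have h4 : 2 ^ (k - 1) ≤ 2 ^ k := Nat.pow_le_pow_right (by norm_num) (by omega)
  have h5 : 0 < 2 ^ (k - 1) := by positivity
  have hd0 : 0 < d := Nat.pos_of_ne_zero (by rintro rfl; exact hd (dvd_zero _))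
  omega

theorem core_two_sum (k a b S : ℕ) (hk : 2 ≤ k) (hko : Odd k)
    (hS : 2 ^ k ∣ S) (h : a ^ k + b ^ k = S) (ha : ¬ 2 ∣ a) (hb : ¬ 2 ∣ b) :
    2 ^ (k - 1) < max a b := by
  have hxy : (2 : ℤ) ∣ (a : ℤ) - (-(b : ℤ)) := by omega
  have hx : ¬ (2 : ℤ) ∣ (a : ℤ) := by omega
  have hn : ¬ (2 : ℤ) ∣ ((k : ℕ) : ℤ) := by
    obtain ⟨r, rfl⟩ := hko
    omega
  have he := emultiplicity_pow_sub_pow_of_prime (R := ℤ) Int.prime_two hxy hx hn
  have hZ : ((2 : ℤ)) ^ k ∣ (a : ℤ) ^ k - (-(b : ℤ)) ^ k := by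
    rw [hko.neg_pow, sub_neg_eq_add]
    have : ((2 ^ k : ℕ) : ℤ) ∣ ((a ^ k + b ^ k : ℕ) : ℤ) := by
      rw [h]; exact_mod_cast hS
    push_cast at this
    exact this
  have h1 : ((2 : ℤ)) ^ k ∣ (a : ℤ) - (-(b : ℤ)) := by
    rw [pow_dvd_iff_le_emultiplicity] at hZ ⊢
    rwa [he] at hZ
  have h2 : (2 : ℤ) ^ k ≤ (a : ℤ) - (-(b : ℤ)) := Int.le_of_dvd (by omega) h1
  have h3 : 2 ^ k ≤ a + b := by
    have : ((2 ^ k : ℕ) : ℤ) ≤ (a : ℤ) - (-(b : ℤ)) := by push_cast; exact h2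
    omega
  have h4 : 2 ^ k = 2 * 2 ^ (k - 1) := by
    rw [← pow_succ']; congr 1; omega
  have h5 : 2 ∣ 2 ^ (k - 1) := dvd_pow_self 2 (by omega)
  rcases le_total a b with hab | hab
  · rw [max_eq_right hab]; omega
  · rw [max_eq_left hab]; omega

theorem not_both (k a b c d : ℕ) (hk : 2 ≤ k) (heq : a ^ k + b ^ k = c ^ k + d ^ k)
    (hne : ¬((a = c ∧ b = d) ∨ (a = d ∧ b = c))) : b ≠ d ∧ a ≠ c ∧ a ≠ d ∧ b ≠ c := by
  have hinj : Function.Injective (fun n : ℕ => n ^ k) := Nat.pow_left_injective (by omega)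
  refine ⟨?_, ?_, ?_, ?_⟩
  · rintro rfl; exact hne (Or.inl ⟨hinj (show a ^ k = c ^ k by omega), rfl⟩)
  · rintro rfl; exact hne (Or.inl ⟨rfl, hinj (show b ^ k = d ^ k by omega)⟩)
  · rintro rfl; exact hne (Or.inr ⟨rfl, hinj (show b ^ k = c ^ k by omega)⟩)
  · rintro rfl; exact hne (Or.inr ⟨hinj (show a ^ k = d ^ k by omega), rfl⟩)

/-- The case distinction: after sorting, the multiples of `p` sit on both sides. -/
theorem split (F : ℕ → Prop) (hF : ∀ x y, x ≤ y → F x → F y) (p k a b c d : ℕ) (hk : 2 ≤ k)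
    (heq : a ^ k + b ^ k = c ^ k + d ^ k)
    (hne : ¬((a = c ∧ b = d) ∨ (a = d ∧ b = c)))
    (hcore : ∀ b d X Y : ℕ, p ^ k ∣ X → p ^ k ∣ Y → X + b ^ k = Y + d ^ k → ¬ p ∣ b → ¬ p ∣ d →
      d < b → F b)
    (hcase : (p ∣ a ∧ p ∣ c ∧ ¬ p ∣ b ∧ ¬ p ∣ d) ∨ (p ∣ a ∧ p ∣ d ∧ ¬ p ∣ b ∧ ¬ p ∣ c) ∨
      (p ∣ b ∧ p ∣ c ∧ ¬ p ∣ a ∧ ¬ p ∣ d) ∨ (p ∣ b ∧ p ∣ d ∧ ¬ p ∣ a ∧ ¬ p ∣ c)) :
    F (max (max a b) (max c d)) := by
  obtain ⟨hbd, hac, had, hbc⟩ := not_both k a b c d hk heq hne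
  have key : ∀ u v x y : ℕ, p ∣ u → p ∣ v → ¬ p ∣ x → ¬ p ∣ y → u ^ k + x ^ k = v ^ k + y ^ k →
      x ≠ y → x ≤ max (max a b) (max c d) → y ≤ max (max a b) (max c d) →
      F (max (max a b) (max c d)) := by
    intro u v x y hu hv hx hy he hxy hx' hy'
    rcases lt_or_gt_of_ne hxy with hlt | hlt
    · exact hF _ _ hy' (hcore y x (v ^ k) (u ^ k) (pow_dvd_pow_of_dvd hv k)
        (pow_dvd_pow_of_dvd hu k) he.symm hy hx hlt)
    · exact hF _ _ hx' (hcore x y (u ^ k) (v ^ k) (pow_dvd_pow_of_dvd hu k)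
        (pow_dvd_pow_of_dvd hv k) he hx hy hlt)
  have hma : a ≤ max (max a b) (max c d) := by simp
  have hmb : b ≤ max (max a b) (max c d) := by simp
  have hmc : c ≤ max (max a b) (max c d) := by simp
  have hmd : d ≤ max (max a b) (max c d) := by simp
  rcases hcase with ⟨h1, h2, h3, h4⟩ | ⟨h1, h2, h3, h4⟩ | ⟨h1, h2, h3, h4⟩ | ⟨h1, h2, h3, h4⟩
  · exact key a c b d h1 h2 h3 h4 heq hbd hmb hmd
  · exact key a d b c h1 h2 h3 h4 (by omega) hbc hmb hmc
  · exact key b c a d h1 h2 h3 h4 (by omega) had hma hmd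
  · exact key b d a c h1 h2 h3 h4 (by omega) hac hma hmc

theorem result (k a b c d p : ℕ) (hk : 2 ≤ k) (hp : p.Prime) (hpk : (p - 1) ∣ k)
    (_ha : 0 < a) (_hb : 0 < b) (_hc : 0 < c) (_hd : 0 < d)
    (hprim : ¬ (p ∣ a ∧ p ∣ b ∧ p ∣ c ∧ p ∣ d))
    (heq : a ^ k + b ^ k = c ^ k + d ^ k)
    (hne : ¬((a = c ∧ b = d) ∨ (a = d ∧ b = c)))
    (hdiv : p ∣ a ∨ p ∣ b ∨ p ∣ c ∨ p ∣ d) :
    (p ≠ 2 → p ^ (k - padicValNat p k) < (max (max a b) (max c d)) ^ (p - 1)) ∧
    (p = 2 → Even k → 2 ^ (k + 1 - padicValNat 2 k) < (max (max a b) (max c d)) ^ 2) ∧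
    (p = 2 → Odd k → 2 ^ (k - 1) < max (max a b) (max c d)) := by
  refine ⟨?_, ?_, ?_⟩
  · intro hp2
    have hp3 : 3 ≤ p := by have := hp.two_le; omega
    apply split (fun M => p ^ (k - padicValNat p k) < M ^ (p - 1)) ?_ p k a b c d hk heq hne ?_ ?_
    · intro x y hxy hx
      exact lt_of_lt_of_le hx (Nat.pow_le_pow_left hxy _)
    · intro b d X Y hX hY h hb hd hdb
      exact core_odd p k b d X Y hp hp2 hk hpk hX hY h hb hd hdb
    · obtain ⟨m, hm⟩ := hpk
      have hone : ∀ x : ℕ, ¬ p ∣ x → ((x ^ k : ℕ) : ZMod p) = 1 := by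
        intro x hx
        have : Fact p.Prime := ⟨hp⟩
        have hx0 : (x : ZMod p) ≠ 0 := by
          rwa [Ne, ZMod.natCast_eq_zero_iff]
        push_cast
        rw [hm, pow_mul, ZMod.pow_card_sub_one_eq_one hx0, one_pow]
      have hzero : ∀ x : ℕ, p ∣ x → ((x ^ k : ℕ) : ZMod p) = 0 := by
        intro x hx
        rw [ZMod.natCast_eq_zero_iff]
        exact dvd_pow hx (by omega)
      have hsum : ((a ^ k : ℕ) : ZMod p) + ((b ^ k : ℕ) : ZMod p) =
          ((c ^ k : ℕ) : ZMod p) + ((d ^ k : ℕ) : ZMod p) := by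
        rw [← Nat.cast_add, ← Nat.cast_add, heq]
      have h1 : (1 : ZMod p) ≠ 0 := by
        have : Fact (1 < p) := ⟨by omega⟩
        exact one_ne_zero
      have h2 : (1 + 1 : ZMod p) ≠ 0 := by
        have h20 : ((2 : ℕ) : ZMod p) ≠ 0 := by
          rw [Ne, ZMod.natCast_eq_zero_iff]
          intro h
          have := Nat.le_of_dvd (by norm_num) h
          omega
        intro h
        apply h20
        push_cast
        rw [← h]; ring
      have h3 : (1 + 1 : ZMod p) ≠ 1 := by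
        intro h
        apply h1
        have := congrArg (fun z => z - 1) h
        simpa using this
      by_cases pa : p ∣ a <;> by_cases pb : p ∣ b <;> by_cases pc : p ∣ c <;> by_cases pd : p ∣ d <;>
        simp only [pa, pb, pc, pd, hzero, hone, not_true_eq_false, not_false_eq_true,
          and_self, and_true, true_and, or_true, true_or, or_self, add_zero, zero_add,
          false_and, and_false, or_false, false_or] at hsum hprim hdiv ⊢ <;>
        first
        | exact absurd hsum h1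
        | exact absurd hsum h1.symm
        | exact absurd hsum h2
        | exact absurd hsum h2.symm
        | exact absurd hsum h3
        | exact absurd hsum h3.symm
  · intro h2 hke
    subst h2
    apply split (fun M => 2 ^ (k + 1 - padicValNat 2 k) < M ^ 2) ?_ 2 k a b c d hk heq hne ?_ ?_
    · intro x y hxy hx
      exact lt_of_lt_of_le hx (Nat.pow_le_pow_left hxy _)
    · intro b d X Y hX hY h hb hd hdb
      exact core_even k b d X Y hk hke hX hY h hb hd hdb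
    · have hone : ∀ x : ℕ, ¬ 2 ∣ x → x ^ k % 4 = 1 := by
        intro x hx
        obtain ⟨m, rfl⟩ := hke.two_dvd
        rw [pow_mul, Nat.pow_mod]
        have : x ^ 2 % 4 = 1 := by
          have : x % 4 = 1 ∨ x % 4 = 3 := by omega
          rcases this with h | h <;> simp [Nat.pow_mod, h]
        rw [this, one_pow]; norm_num
      have hzero : ∀ x : ℕ, 2 ∣ x → x ^ k % 4 = 0 := by
        intro x hx
        apply Nat.mod_eq_zero_of_dvd
        calc (4 : ℕ) = 2 ^ 2 := by norm_num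
          _ ∣ x ^ 2 := pow_dvd_pow_of_dvd hx 2
          _ ∣ x ^ k := pow_dvd_pow x hk
      by_cases pa : 2 ∣ a <;> by_cases pb : 2 ∣ b <;> by_cases pc : 2 ∣ c <;> by_cases pd : 2 ∣ d
      all_goals
        first
        | (exfalso; exact hprim ⟨pa, pb, pc, pd⟩)
        | (exfalso; rcases hdiv with h | h | h | h <;> contradiction)
        | (have ea := hzero a pa)
        | (have ea := hone a pa)
      all_goals
        first
        | (have eb := hzero b pb)
        | (have eb := hone b pb)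
      all_goals
        first
        | (have ec := hzero c pc)
        | (have ec := hone c pc)
      all_goals
        first
        | (have ed := hzero d pd)
        | (have ed := hone d pd)
      all_goals
        first
        | (exfalso; omega)
        | (simp only [pa, pb, pc, pd, not_true_eq_false, not_false_eq_true,
            and_self, and_true, true_and, or_true, true_or, or_self,
            false_and, and_false, or_false, false_or])
  · intro h2 hko
    subst h2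
    have hpar : ∀ x : ℕ, (2 ∣ x ^ k ↔ 2 ∣ x) := by
      intro x
      exact ⟨fun h => Nat.prime_two.dvd_of_dvd_pow h, fun h => dvd_pow h (by omega)⟩
    have ea := hpar a
    have eb := hpar b
    have ec := hpar c
    have ed := hpar d
    by_cases hc1 : 2 ∣ c ∧ 2 ∣ d
    · have hS : 2 ^ k ∣ c ^ k + d ^ k :=
        dvd_add (pow_dvd_pow_of_dvd hc1.1 k) (pow_dvd_pow_of_dvd hc1.2 k)
      have h1 : ¬ 2 ∣ a := by
        intro h
        apply hprim
        refine ⟨h, ?_, hc1.1, hc1.2⟩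
        have h1 := ea.2 h
        have h2 := ec.2 hc1.1
        have h3 := ed.2 hc1.2
        apply eb.1
        omega
      have h2 : ¬ 2 ∣ b := by
        intro h
        apply h1
        have h1 := eb.2 h
        have h2 := ec.2 hc1.1
        have h3 := ed.2 hc1.2
        apply ea.1
        omega
      exact lt_of_lt_of_le (core_two_sum k a b _ hk hko hS heq h1 h2) (le_max_left _ _)
    · by_cases hc2 : 2 ∣ a ∧ 2 ∣ b
      · have hS : 2 ^ k ∣ a ^ k + b ^ k :=
          dvd_add (pow_dvd_pow_of_dvd hc2.1 k) (pow_dvd_pow_of_dvd hc2.2 k)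
        have h1 : ¬ 2 ∣ c := by
          intro h
          apply hc1
          refine ⟨h, ?_⟩
          have h1 := ea.2 hc2.1
          have h2 := eb.2 hc2.2
          have h3 := ec.2 h
          apply ed.1
          omega
        have h2 : ¬ 2 ∣ d := by
          intro h
          apply h1
          have h1 := ea.2 hc2.1
          have h2 := eb.2 hc2.2
          have h3 := ed.2 h
          apply ec.1
          omega
        exact lt_of_lt_of_le (core_two_sum k c d _ hk hko hS heq.symm h1 h2) (le_max_right _ _)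
      · apply split (fun M => 2 ^ (k - 1) < M) (fun x y hxy hx => lt_of_lt_of_le hx hxy)
          2 k a b c d hk heq hne ?_ ?_
        · intro b d X Y hX hY h hb hd hdb
          exact core_two_odd k b d X Y hk hko hX hY h hb hd hdb
        · by_cases pa : 2 ∣ a <;> by_cases pb : 2 ∣ b <;> by_cases pc : 2 ∣ c <;>
            by_cases pd : 2 ∣ d <;>
            simp only [pa, pb, pc, pd, not_true_eq_false, not_false_eq_true,
              and_self, and_true, true_and, or_true, true_or, or_self,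
              false_and, and_false, or_false, false_or, iff_true, iff_false] at ea eb ec ed hc1 hc2 hdiv hprim ⊢ <;>
            omega

end Pool.Agent.Results.MP_f8ddab_nt.PrimeDividing
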