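import Mathlib
import Pool.Agent.Results.MP_f8ddab_nt.PrimeDividing

set_option autoImplicit false

namespace Pool.Agent.Results.MP_f8ddab_nt.OddGap

open Finset

/-- The primes `p` with `(p - 1) ∣ (k - 1)`. -/
def vsPrimes (k : ℕ) : Finset ℕ := (Finset.range (k + 1)).filter (fun p => p.Prime ∧ (p - 1) ∣ (k - 1))

theorem pow_diff_lt (k b c h : ℕ) (hk : 2 ≤ k) (hh : 0 < h) (hbc : b < c) :
    (b + h) ^ k + c ^ k < (c + h) ^ k + b ^ k := by
  have h1 : ((c : ℤ) + h) ^ k - (c : ℤ) ^ k = (∑ i ∈ range k, ((c : ℤ) + h) ^ i * (c : ℤ) ^ (k - 1 - i)) * h := by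
    rw [← geom_sum₂_mul]; ring
  have h2 : ((b : ℤ) + h) ^ k - (b : ℤ) ^ k = (∑ i ∈ range k, ((b : ℤ) + h) ^ i * (b : ℤ) ^ (k - 1 - i)) * h := by
    rw [← geom_sum₂_mul]; ring
  have h3 : (∑ i ∈ range k, ((b : ℤ) + h) ^ i * (b : ℤ) ^ (k - 1 - i)) <
      (∑ i ∈ range k, ((c : ℤ) + h) ^ i * (c : ℤ) ^ (k - 1 - i)) := by
    apply Finset.sum_lt_sum
    · intro i _
      gcongr
    · refine ⟨k - 1, by simp; omega, ?_⟩
      simp only [tsub_self, pow_zero, mul_one]
      apply pow_lt_pow_left₀ _ (by positivity) (by omega)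
      have : (b : ℤ) < c := by exact_mod_cast hbc
      linarith
  have h4 : ((b : ℤ) + h) ^ k - (b : ℤ) ^ k < ((c : ℤ) + h) ^ k - (c : ℤ) ^ k := by
    rw [h1, h2]
    have : (0 : ℤ) < h := by exact_mod_cast hh
    exact mul_lt_mul_of_pos_right h3 this
  have h5 : (((b + h) ^ k + c ^ k : ℕ) : ℤ) < (((c + h) ^ k + b ^ k : ℕ) : ℤ) := by
    push_cast; linarith
  exact_mod_cast h5

theorem sum_ne (k a b c d : ℕ) (hk : 2 ≤ k) (heq : a ^ k + b ^ k = c ^ k + d ^ k)
    (hne : ¬((a = c ∧ b = d) ∨ (a = d ∧ b = c))) : a + b ≠ c + d := by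
  -- reduce to sorted variables
  have key : ∀ a b c d : ℕ, b ≤ a → d ≤ c → c ≤ a → a ^ k + b ^ k = c ^ k + d ^ k →
      a + b = c + d → a = c ∧ b = d := by
    intro a b c d _hba _hdc hca heq hs
    by_contra hcon
    have hlt : c < a := by
      rcases lt_or_eq_of_le hca with h | h
      · exact h
      · exact absurd ⟨h.symm, by omega⟩ hcon
    have hbd : b < c := by omega
    have h := pow_diff_lt k b c (a - c) hk (by omega) hbd
    rw [show b + (a - c) = d by omega, show c + (a - c) = a by omega] at h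
    omega
  intro hs
  apply hne
  rcases le_total b a with h1 | h1 <;> rcases le_total d c with h2 | h2
  · rcases le_total c a with h3 | h3
    · have := key a b c d h1 h2 h3 heq hs; omega
    · have := key c d a b h2 h1 h3 heq.symm hs.symm; omega
  · rcases le_total d a with h3 | h3
    · have := key a b d c h1 h2 h3 (by omega) (by omega); omega
    · have := key d c a b h2 h1 h3 (by omega) (by omega); omega
  · rcases le_total c b with h3 | h3
    · have := key b a c d h1 h2 h3 (by omega) (by omega); omega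
    · have := key c d b a h2 h1 h3 (by omega) (by omega); omega
  · rcases le_total d b with h3 | h3
    · have := key b a d c h1 h2 h3 (by omega) (by omega); omega
    · have := key d c b a h2 h1 h3 (by omega) (by omega); omega

/-- If `x ^ k + y ^ k = u ^ k + v ^ k` with positive `x y`, then `u < x + y`. -/
theorem lt_sum (k x y u v : ℕ) (hk : 2 ≤ k) (hx : 0 < x) (hy : 0 < y) (hv : 0 < v)
    (heq : x ^ k + y ^ k = u ^ k + v ^ k) : u < x + y := by
  by_contra hcon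
  push Not at hcon
  have h1 : (x + y) ^ k ≤ u ^ k := Nat.pow_le_pow_left hcon k
  have h2 : x ^ k + y ^ k ≤ (x + y) ^ k := by
    obtain ⟨m, rfl⟩ : ∃ m, k = m + 1 := ⟨k - 1, by omega⟩
    calc x ^ (m + 1) + y ^ (m + 1) = x ^ m * x + y ^ m * y := by ring
      _ ≤ (x + y) ^ m * x + (x + y) ^ m * y := by gcongr <;> omega
      _ = (x + y) ^ (m + 1) := by ring
  have h3 : 0 < v ^ k := pow_pos hv k
  omega

theorem pow_congr_two (k x : ℕ) (hk : 3 ≤ k) (hodd : Odd k) (hx : ¬ 2 ∣ x) :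
    ((2 : ℤ)) ^ (padicValNat 2 (k - 1) + 2) ∣ (x : ℤ) ^ k - x := by
  have hx0 : 1 ≤ x := by omega
  rcases Nat.lt_or_ge 1 x with h1 | h1
  · have hev : Even (k - 1) := by
      obtain ⟨r, rfl⟩ := hodd
      exact ⟨r, by omega⟩
    have h := padicValNat.pow_two_sub_one_ge h1 hx (show k - 1 ≠ 0 by omega) hev
    have hne : x ^ (k - 1) - 1 ≠ 0 := by
      have := Nat.one_lt_pow (show k - 1 ≠ 0 by omega) h1
      omega
    have h2 : 2 ^ (padicValNat 2 (k - 1) + 2) ∣ x ^ (k - 1) - 1 :=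
      (padicValNat_dvd_iff_le hne).2 h
    have h3 : (((2 ^ (padicValNat 2 (k - 1) + 2) : ℕ)) : ℤ) ∣ ((x ^ (k - 1) - 1 : ℕ) : ℤ) := by
      exact_mod_cast h2
    rw [Nat.cast_sub (Nat.one_le_pow _ _ hx0)] at h3
    push_cast at h3
    have h4 : (x : ℤ) ^ k - x = ((x : ℤ) ^ (k - 1) - 1) * x := by
      have : (x : ℤ) ^ k = (x : ℤ) ^ (k - 1) * x := by
        rw [← pow_succ]; congr 1; omega
      rw [this]; ring
    rw [h4]
    exact Dvd.dvd.mul_right h3 _
  · have : x = 1 := by omega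
    subst this
    simp

theorem pow_congr_prime (k p x : ℕ) (hk : 3 ≤ k) (hp : p.Prime) (hpk : (p - 1) ∣ (k - 1)) :
    (p : ℤ) ∣ (x : ℤ) ^ k - x := by
  haveI : Fact p.Prime := ⟨hp⟩
  have h : (((x : ℤ) ^ k - x : ℤ) : ZMod p) = 0 := by
    push_cast
    by_cases h0 : (x : ZMod p) = 0
    · rw [h0, zero_pow (by omega)]; ring
    · obtain ⟨m, hm⟩ := hpk
      have hk1 : k = (p - 1) * m + 1 := by omega
      rw [hk1, pow_succ, pow_mul, ZMod.pow_card_sub_one_eq_one h0]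
      ring
  exact (ZMod.intCast_zmod_eq_zero_iff_dvd _ p).1 h

theorem dvd_sum_diff (k a b c d : ℕ) (hk : 3 ≤ k) (hodd : Odd k)
    (heq : a ^ k + b ^ k = c ^ k + d ^ k)
    (ha : ¬ 2 ∣ a) (hb : ¬ 2 ∣ b) (hc : ¬ 2 ∣ c) (hd : ¬ 2 ∣ d) :
    ((2 ^ (padicValNat 2 (k - 1) + 1) * ∏ p ∈ vsPrimes k, p : ℕ) : ℤ) ∣
      ((c : ℤ) + d) - (a + b) := by
  have hZ : (a : ℤ) ^ k + (b : ℤ) ^ k = (c : ℤ) ^ k + (d : ℤ) ^ k := by exact_mod_cast heq
  have h2mem : 2 ∈ vsPrimes k := by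
    simp only [vsPrimes, mem_filter, mem_range]
    exact ⟨by omega, Nat.prime_two, by norm_num⟩
  have hprod : (∏ p ∈ vsPrimes k, p) = 2 * ∏ p ∈ (vsPrimes k).erase 2, p :=
    (Finset.mul_prod_erase _ _ h2mem).symm
  have hE : 2 ^ (padicValNat 2 (k - 1) + 1) * ∏ p ∈ vsPrimes k, p =
      2 ^ (padicValNat 2 (k - 1) + 2) * ∏ p ∈ (vsPrimes k).erase 2, p := by
    rw [hprod]; ring
  rw [hE]
  have hA : ((2 : ℤ)) ^ (padicValNat 2 (k - 1) + 2) ∣ ((c : ℤ) + d) - (a + b) := by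
    have e1 := pow_congr_two k a hk hodd ha
    have e2 := pow_congr_two k b hk hodd hb
    have e3 := pow_congr_two k c hk hodd hc
    have e4 := pow_congr_two k d hk hodd hd
    have : ((c : ℤ) + d) - (a + b) = (((a : ℤ) ^ k - a) + ((b : ℤ) ^ k - b)) -
        (((c : ℤ) ^ k - c) + ((d : ℤ) ^ k - d)) := by linarith
    rw [this]
    exact dvd_sub (dvd_add e1 e2) (dvd_add e3 e4)
  have hB : ∀ p ∈ (vsPrimes k).erase 2, (p : ℤ) ∣ ((c : ℤ) + d) - (a + b) := by
    intro p hp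
    simp only [vsPrimes, mem_erase, mem_filter, mem_range] at hp
    have e1 := pow_congr_prime k p a hk hp.2.2.1 hp.2.2.2
    have e2 := pow_congr_prime k p b hk hp.2.2.1 hp.2.2.2
    have e3 := pow_congr_prime k p c hk hp.2.2.1 hp.2.2.2
    have e4 := pow_congr_prime k p d hk hp.2.2.1 hp.2.2.2
    have : ((c : ℤ) + d) - (a + b) = (((a : ℤ) ^ k - a) + ((b : ℤ) ^ k - b)) -
        (((c : ℤ) ^ k - c) + ((d : ℤ) ^ k - d)) := by linarith
    rw [this]
    exact dvd_sub (dvd_add e1 e2) (dvd_add e3 e4)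
  set W : ℤ := ((c : ℤ) + d) - (a + b) with hW
  have hA' : 2 ^ (padicValNat 2 (k - 1) + 2) ∣ W.natAbs := by
    have : (((2 ^ (padicValNat 2 (k - 1) + 2) : ℕ)) : ℤ) ∣ W := by push_cast; exact hA
    exact Int.natCast_dvd.1 this
  have hB' : (∏ p ∈ (vsPrimes k).erase 2, p) ∣ W.natAbs := by
    apply Finset.prod_primes_dvd
    · intro p hp
      simp only [vsPrimes, mem_erase, mem_filter, mem_range] at hp
      exact hp.2.2.1.prime
    · intro p hp
      exact Int.natCast_dvd.1 (hB p hp)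
  have hcop : Nat.Coprime (2 ^ (padicValNat 2 (k - 1) + 2)) (∏ p ∈ (vsPrimes k).erase 2, p) := by
    apply Nat.Coprime.pow_left
    apply Nat.Coprime.prod_right
    intro p hp
    simp only [vsPrimes, mem_erase, mem_filter, mem_range] at hp
    exact (Nat.coprime_primes Nat.prime_two hp.2.2.1).2 (Ne.symm hp.1)
  rw [Int.natCast_dvd]
  exact hcop.mul_dvd_of_dvd_of_dvd hA' hB'

theorem primitive_case (k a b c d : ℕ) (hk : 3 ≤ k) (hodd : Odd k)
    (ha : 0 < a) (hb : 0 < b) (hc : 0 < c) (hd : 0 < d)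
    (heq : a ^ k + b ^ k = c ^ k + d ^ k)
    (hne : ¬((a = c ∧ b = d) ∨ (a = d ∧ b = c)))
    (hprim : ¬ (2 ∣ a ∧ 2 ∣ b ∧ 2 ∣ c ∧ 2 ∣ d)) :
    min (2 ^ (k - 1)) (2 ^ (padicValNat 2 (k - 1) + 1) * ∏ p ∈ vsPrimes k, p) <
      max (max a b) (max c d) := by
  by_cases hdiv : 2 ∣ a ∨ 2 ∣ b ∨ 2 ∣ c ∨ 2 ∣ d
  · have h := (PrimeDividing.result k a b c d 2 (by omega) Nat.prime_two (by norm_num) ha hb hc hd
      hprim heq hne hdiv).2.2 rfl hodd
    exact lt_of_le_of_lt (min_le_left _ _) h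
  · push Not at hdiv
    obtain ⟨oa, ob, oc, od⟩ := hdiv
    have hdvd := dvd_sum_diff k a b c d hk hodd heq oa ob oc od
    have hsne := sum_ne k a b c d (by omega) heq hne
    set E := 2 ^ (padicValNat 2 (k - 1) + 1) * ∏ p ∈ vsPrimes k, p with hE
    have hcon : (E : ℤ) ≤ |((c : ℤ) + d) - (a + b)| := by
      have h1 : (E : ℤ) ∣ |((c : ℤ) + d) - (a + b)| := by rwa [dvd_abs]
      apply Int.le_of_dvd _ h1
      rw [abs_pos]
      intro h0
      apply hsne
      omega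
    have hc1 := lt_sum k a b c d (by omega) ha hb hd heq
    have hd1 := lt_sum k a b d c (by omega) ha hb hc (by omega)
    have ha1 := lt_sum k c d a b (by omega) hc hd hb heq.symm
    have hb1 := lt_sum k c d b a (by omega) hc hd ha (by omega)
    apply lt_of_le_of_lt (min_le_right _ _)
    have hM1 : a ≤ max (max a b) (max c d) := by simp
    have hM2 : c ≤ max (max a b) (max c d) := by simp
    rcases abs_cases (((c : ℤ) + d) - (a + b)) with ⟨h1, h2⟩ | ⟨h1, h2⟩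
    · rw [h1] at hcon
      omega
    · rw [h1] at hcon
      omega

theorem result (k a b c d : ℕ) (hk : 3 ≤ k) (hodd : Odd k)
    (ha : 0 < a) (hb : 0 < b) (hc : 0 < c) (hd : 0 < d)
    (heq : a ^ k + b ^ k = c ^ k + d ^ k)
    (hne : ¬((a = c ∧ b = d) ∨ (a = d ∧ b = c))) :
    min (2 ^ (k - 1)) (2 ^ (padicValNat 2 (k - 1) + 1) *
        ∏ p ∈ (Finset.range (k + 1)).filter (fun p => p.Prime ∧ (p - 1) ∣ (k - 1)), p) <
      max (max a b) (max c d) := by
  change min (2 ^ (k - 1)) (2 ^ (padicValNat 2 (k - 1) + 1) * ∏ p ∈ vsPrimes k, p) < _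
  induction' hn : a using Nat.strong_induction_on with n ih generalizing a b c d
  subst hn
  by_cases hprim : 2 ∣ a ∧ 2 ∣ b ∧ 2 ∣ c ∧ 2 ∣ d
  · obtain ⟨⟨a', rfl⟩, ⟨b', rfl⟩, ⟨c', rfl⟩, ⟨d', rfl⟩⟩ := hprim
    have heq' : a' ^ k + b' ^ k = c' ^ k + d' ^ k := by
      simp only [mul_pow, ← mul_add] at heq
      exact Nat.eq_of_mul_eq_mul_left (by positivity) heq
    have h := ih a' (by omega) a' b' c' d' (by omega) (by omega) (by omega) (by omega) heq'
      (by omega) rfl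
    refine lt_of_lt_of_le h ?_
    apply max_le_max <;> apply max_le_max <;> omega
  · exact primitive_case k a b c d hk hodd ha hb hc hd heq hne hprim

end Pool.Agent.Results.MP_f8ddab_nt.OddGap
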