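import Mathlib

/-!
# MP_f8ddab_nt: integers with two primitive representations as a sum of two `k`th powers
are smooth
-/

set_option autoImplicit false

namespace Pool.Agent.Results.MP_f8ddab_nt.PrimePowers

/-- The size of the index set of the pigeonhole argument. -/
lemma card_aux (L : ℕ) : L * L ≤ 2 * (((L + 1) / 2) * ((L + 1) / 2) + (L / 2) * (L / 2)) := by
  rcases Nat.even_or_odd' L with ⟨m, rfl | rfl⟩
  · have h1 : (2 * m + 1) / 2 = m := by omega
    have h2 : 2 * m / 2 = m := by omega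
    rw [h1, h2]; nlinarith
  · have h1 : (2 * m + 1 + 1) / 2 = m + 1 := by omega
    have h2 : (2 * m + 1) / 2 = m := by omega
    rw [h1, h2]; nlinarith

/-- First coordinate of the points of the pigeonhole argument. -/
def coordR (p p' : ℕ) : ((Fin p × Fin p) ⊕ (Fin p' × Fin p')) → ℤ
  | Sum.inl x => (x.1 : ℤ) + (x.2 : ℤ)
  | Sum.inr x => (x.1 : ℤ) + (x.2 : ℤ) + 1

/-- Second coordinate of the points of the pigeonhole argument. -/
def coordS (p p' : ℕ) : ((Fin p × Fin p) ⊕ (Fin p' × Fin p')) → ℤ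
  | Sum.inl x => (x.1 : ℤ) - (x.2 : ℤ)
  | Sum.inr x => (x.1 : ℤ) - (x.2 : ℤ)

lemma coord_ne (p p' : ℕ) {x y : (Fin p × Fin p) ⊕ (Fin p' × Fin p')} (h : x ≠ y) :
    coordR p p' x - coordR p p' y ≠ 0 ∨ coordS p p' x - coordS p p' y ≠ 0 := by
  by_contra hcon
  push Not at hcon
  obtain ⟨h1, h2⟩ := hcon
  apply h
  rcases x with ⟨i, j⟩ | ⟨i, j⟩ <;> rcases y with ⟨i', j'⟩ | ⟨i', j'⟩ <;>
    simp only [coordR, coordS] at h1 h2
  · have e1 : (i : ℕ) = i' := by omega
    have e2 : (j : ℕ) = j' := by omega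
    rw [Fin.ext e1, Fin.ext e2]
  · omega
  · omega
  · have e1 : (i : ℕ) = i' := by omega
    have e2 : (j : ℕ) = j' := by omega
    rw [Fin.ext e1, Fin.ext e2]

lemma coord_le (T : ℕ)
    (x y : (Fin ((T + 1 + 1) / 2) × Fin ((T + 1 + 1) / 2)) ⊕
      (Fin ((T + 1) / 2) × Fin ((T + 1) / 2))) :
    |coordR _ _ x - coordR _ _ y| + |coordS _ _ x - coordS _ _ y| ≤ (T : ℤ) := by
  rcases x with ⟨i, j⟩ | ⟨i, j⟩ <;> rcases y with ⟨i', j'⟩ | ⟨i', j'⟩ <;>
    simp only [coordR, coordS] <;>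
    (have hi := i.isLt
     have hj := j.isLt
     have hi' := i'.isLt
     have hj' := j'.isLt
     generalize (i : ℕ) = i0 at *
     generalize (j : ℕ) = j0 at *
     generalize (i' : ℕ) = i1 at *
     generalize (j' : ℕ) = j1 at *
     rw [abs_eq_max_neg, abs_eq_max_neg]
     omega)

/-- Two elements of a cyclic group of units whose orders divide `2k` satisfy a short
multiplicative relation up to sign. -/
lemma exists_relation {n k : ℕ} [NeZero n] (hn : 2 < n) (hcyc : IsCyclic (ZMod n)ˣ)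
    (hk : 0 < k) {α γ : (ZMod n)ˣ} (hα2 : α ^ (2 * k) = 1) (hγ2 : γ ^ (2 * k) = 1) :
    ∃ r s : ℤ, (r ≠ 0 ∨ s ≠ 0) ∧ |r| + |s| ≤ (Nat.sqrt (2 * k) : ℤ) ∧
      (γ ^ r * α ^ s = 1 ∨ γ ^ r * α ^ s = -1) := by
  classical
  have : Fact (2 < n) := ⟨hn⟩
  set T := Nat.sqrt (2 * k) with hT
  have hz : ∀ (x : (ZMod n)ˣ), x ^ (2 * k) = 1 → ∀ r : ℤ, (x ^ r) ^ (2 * k) = 1 := by
    intro x hx r
    rw [← zpow_natCast, ← zpow_mul, mul_comm, zpow_mul, zpow_natCast, hx, one_zpow]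
  let ι := (Fin ((T + 1 + 1) / 2) × Fin ((T + 1 + 1) / 2)) ⊕
      (Fin ((T + 1) / 2) × Fin ((T + 1) / 2))
  let H := {x : (ZMod n)ˣ // x ^ (2 * k) = 1}
  have hH : Fintype.card H ≤ 2 * k := by
    have := IsCyclic.card_pow_eq_one_le (α := (ZMod n)ˣ) (n := 2 * k) (by omega)
    rw [← Fintype.card_subtype] at this
    exact this
  have hι : 2 * k < Fintype.card (ι × Bool) := by
    have h1 : Fintype.card (ι × Bool) = 2 * (((T + 1 + 1) / 2) * ((T + 1 + 1) / 2)
        + ((T + 1) / 2) * ((T + 1) / 2)) := by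
      simp only [ι, Fintype.card_prod, Fintype.card_sum, Fintype.card_fin, Fintype.card_bool]
      ring
    rw [h1]
    have h2 := card_aux (T + 1)
    have h3 : 2 * k < (T + 1) * (T + 1) := Nat.lt_succ_sqrt (2 * k)
    omega
  have hsgn : ∀ b : Bool, ((if b then (-1 : (ZMod n)ˣ) else 1)) ^ (2 * k) = 1 := by
    intro b
    rw [pow_mul]
    cases b <;> simp
  let f : ι × Bool → H := fun x =>
    ⟨(if x.2 then (-1 : (ZMod n)ˣ) else 1) *
      (γ ^ (coordR _ _ x.1) * α ^ (coordS _ _ x.1)), by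
      rw [mul_pow, mul_pow, hsgn, hz γ hγ2, hz α hα2]; simp⟩
  obtain ⟨x, y, hxy, hf⟩ := Fintype.exists_ne_map_eq_of_card_lt f (lt_of_le_of_lt hH hι)
  have hf' : (if x.2 then (-1 : (ZMod n)ˣ) else 1) *
      (γ ^ (coordR _ _ x.1) * α ^ (coordS _ _ x.1)) =
      (if y.2 then (-1 : (ZMod n)ˣ) else 1) *
      (γ ^ (coordR _ _ y.1) * α ^ (coordS _ _ y.1)) := congrArg Subtype.val hf
  have hne : (-1 : (ZMod n)ˣ) ≠ 1 := by
    intro h
    have := congrArg Units.val h
    simp only [Units.val_neg, Units.val_one] at this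
    exact ZMod.neg_one_ne_one this
  have hxy1 : x.1 ≠ y.1 := by
    intro h
    rw [h] at hf'
    have h2 := mul_right_cancel hf'
    apply hxy
    refine Prod.ext h ?_
    cases hx2 : x.2 <;> cases hy2 : y.2 <;> simp only [hx2, hy2] at h2 ⊢
    · exact absurd h2.symm (by simpa using hne)
    · exact absurd h2 (by simpa using hne)
  refine ⟨coordR _ _ x.1 - coordR _ _ y.1, coordS _ _ x.1 - coordS _ _ y.1,
    coord_ne _ _ hxy1, coord_le T x.1 y.1, ?_⟩
  have key : γ ^ (coordR _ _ x.1 - coordR _ _ y.1) * α ^ (coordS _ _ x.1 - coordS _ _ y.1) =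
      (γ ^ (coordR _ _ x.1) * α ^ (coordS _ _ x.1)) *
      (γ ^ (coordR _ _ y.1) * α ^ (coordS _ _ y.1))⁻¹ := by
    rw [zpow_sub, zpow_sub, mul_inv]
    exact mul_mul_mul_comm _ _ _ _
  rw [key]
  cases hx2 : x.2 <;> cases hy2 : y.2 <;> simp only [hx2, hy2] at hf' <;> simp at hf'
  · left; rw [hf']; simp
  · right; rw [hf']; simp
  · right
    have : γ ^ (coordR _ _ x.1) * α ^ (coordS _ _ x.1) =
        - (γ ^ (coordR _ _ y.1) * α ^ (coordS _ _ y.1)) := by rw [← hf']; simp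
    rw [this]; simp
  · left; rw [hf']; simp

/-- A multiplicative relation of units, written as a congruence of integers. -/
lemma dvd_of_relation {n a b c d r s : ℕ} (hA : a.Coprime n) (hB : b.Coprime n)
    (hC : c.Coprime n) (hD : d.Coprime n) {ε : ℤ}
    (hε : ε = 1 ∨ ε = -1)
    (h : (ZMod.unitOfCoprime c hC * (ZMod.unitOfCoprime d hD)⁻¹) ^ r *
      (ZMod.unitOfCoprime a hA * (ZMod.unitOfCoprime b hB)⁻¹) ^ s =
        if ε = 1 then 1 else -1) :
    (n : ℤ) ∣ (c : ℤ) ^ r * a ^ s - ε * (d ^ r * b ^ s) := by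
  have h2 : (ZMod.unitOfCoprime c hC) ^ r * (ZMod.unitOfCoprime a hA) ^ s =
      (if ε = 1 then 1 else -1) *
        ((ZMod.unitOfCoprime d hD) ^ r * (ZMod.unitOfCoprime b hB) ^ s) := by
    rw [← h, mul_pow, mul_pow, inv_pow, inv_pow]
    generalize (ZMod.unitOfCoprime c hC) ^ r = x
    generalize (ZMod.unitOfCoprime d hD) ^ r = y
    generalize (ZMod.unitOfCoprime a hA) ^ s = z
    generalize (ZMod.unitOfCoprime b hB) ^ s = w
    calc x * z = x * (y⁻¹ * y) * (z * (w⁻¹ * w)) := by simp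
      _ = x * y⁻¹ * (z * w⁻¹) * (y * w) := by
        rw [← mul_assoc x, ← mul_assoc z]
        exact mul_mul_mul_comm _ _ _ _
  have h3 := congrArg Units.val h2
  rw [← ZMod.intCast_zmod_eq_zero_iff_dvd]
  push_cast
  rcases hε with rfl | rfl
  · simp only [if_true, one_mul, Units.val_mul, Units.val_pow_eq_pow_val,
      ZMod.coe_unitOfCoprime] at h3
    rw [h3]; simp
  · have hne : ¬ ((-1 : ℤ) = 1) := by norm_num
    simp only [hne, if_false, Units.val_mul, Units.val_pow_eq_pow_val,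
      ZMod.coe_unitOfCoprime, Units.val_neg, Units.val_one] at h3
    rw [h3]; simp

/-- A prime power dividing both representations divides a small combination. -/
lemma exists_dvd {q e k a b c d : ℕ} (hq : q.Prime) (hq2 : q ≠ 2) (he : 1 ≤ e) (hk : 0 < k)
    (hab : a.Coprime b) (hcd : c.Coprime d)
    (h1 : q ^ e ∣ a ^ k + b ^ k) (h2 : q ^ e ∣ c ^ k + d ^ k) :
    ∃ r s : ℕ, (r ≠ 0 ∨ s ≠ 0) ∧ r + s ≤ Nat.sqrt (2 * Nat.gcd k (Nat.totient (q ^ e))) ∧
      ∃ ε : ℤ, (ε = 1 ∨ ε = -1) ∧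
      (((q ^ e : ℕ) : ℤ) ∣ (c : ℤ) ^ r * a ^ s - ε * (d ^ r * b ^ s) ∨
        ((q ^ e : ℕ) : ℤ) ∣ (c : ℤ) ^ r * b ^ s - ε * (d ^ r * a ^ s)) := by
  have hqe : q ∣ q ^ e := dvd_pow_self q (by omega)
  -- coprimality with `q ^ e`
  have hcop : ∀ x y : ℕ, x.Coprime y → q ^ e ∣ x ^ k + y ^ k → x.Coprime (q ^ e) := by
    intro x y hxy hd
    apply Nat.Coprime.pow_right
    rw [Nat.coprime_comm, hq.coprime_iff_not_dvd]
    intro hx
    have hy : q ∣ y ^ k := by
      have h3 : q ∣ x ^ k + y ^ k := hqe.trans hd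
      exact (Nat.dvd_add_right (dvd_pow hx (by omega))).mp h3
    have hy' : q ∣ y := hq.dvd_of_dvd_pow hy
    have := Nat.dvd_gcd hx hy'
    rw [hxy] at this
    exact hq.one_lt.ne' (Nat.dvd_one.mp this)
  have hA : a.Coprime (q ^ e) := hcop a b hab h1
  have hB : b.Coprime (q ^ e) := hcop b a hab.symm (by rw [add_comm]; exact h1)
  have hC : c.Coprime (q ^ e) := hcop c d hcd h2
  have hD : d.Coprime (q ^ e) := hcop d c hcd.symm (by rw [add_comm]; exact h2)
  have hn : 2 < q ^ e := by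
    have : 2 < q := lt_of_le_of_ne hq.two_le (Ne.symm hq2)
    calc 2 < q := this
      _ = q ^ 1 := (pow_one q).symm
      _ ≤ q ^ e := Nat.pow_le_pow_right hq.pos he
  have : NeZero (q ^ e) := ⟨by omega⟩
  have hcyc : IsCyclic (ZMod (q ^ e))ˣ := by
    rw [ZMod.isCyclic_units_iff]
    right; right; right; right
    exact ⟨q, e, hq, hq.odd_of_ne_two hq2, he, Or.inl rfl⟩
  have hneg : ∀ (x y : ℕ) (hx : x.Coprime (q ^ e)) (hy : y.Coprime (q ^ e)),
      q ^ e ∣ x ^ k + y ^ k →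
      (ZMod.unitOfCoprime x hx * (ZMod.unitOfCoprime y hy)⁻¹) ^ k = -1 := by
    intro x y hx hy hd
    rw [mul_pow, inv_pow, mul_inv_eq_iff_eq_mul]
    apply Units.ext
    simp only [Units.val_pow_eq_pow_val, ZMod.coe_unitOfCoprime, Units.val_mul, Units.val_neg,
      Units.val_one]
    have h3 : ((x ^ k + y ^ k : ℕ) : ZMod (q ^ e)) = 0 :=
      (ZMod.natCast_eq_zero_iff _ _).mpr hd
    push_cast at h3
    linear_combination h3
  have hord : ∀ (x y : ℕ) (hx : x.Coprime (q ^ e)) (hy : y.Coprime (q ^ e)),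
      q ^ e ∣ x ^ k + y ^ k →
      (ZMod.unitOfCoprime x hx * (ZMod.unitOfCoprime y hy)⁻¹) ^
        (2 * Nat.gcd k (Nat.totient (q ^ e))) = 1 := by
    intro x y hx hy hd
    have hone : (ZMod.unitOfCoprime x hx * (ZMod.unitOfCoprime y hy)⁻¹) ^ (2 * k) = 1 := by
      rw [mul_comm 2 k, pow_mul, hneg x y hx hy hd]; simp
    have htot := ZMod.pow_totient (ZMod.unitOfCoprime x hx * (ZMod.unitOfCoprime y hy)⁻¹)
    rw [← orderOf_dvd_iff_pow_eq_one] at hone htot ⊢
    rw [← Nat.gcd_mul_left]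
    exact Nat.dvd_gcd hone (htot.trans (dvd_mul_left _ _))
  have hg : 0 < Nat.gcd k (Nat.totient (q ^ e)) := Nat.gcd_pos_of_pos_left _ hk
  generalize Nat.gcd k (Nat.totient (q ^ e)) = g at hord hg ⊢
  obtain ⟨r, s, hrs, hle, hrel⟩ := exists_relation hn hcyc hg
    (hord a b hA hB h1) (hord c d hC hD h2)
  -- make `r` nonnegative
  have hwlog : ∃ (r : ℕ) (s : ℤ), (r ≠ 0 ∨ s ≠ 0) ∧ (r : ℤ) + |s| ≤ (Nat.sqrt (2 * g) : ℤ) ∧
      ∃ ε : ℤ, (ε = 1 ∨ ε = -1) ∧
      (ZMod.unitOfCoprime c hC * (ZMod.unitOfCoprime d hD)⁻¹) ^ r *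
      (ZMod.unitOfCoprime a hA * (ZMod.unitOfCoprime b hB)⁻¹) ^ s =
        (if ε = 1 then 1 else -1) := by
    have hrel' : ∃ ε : ℤ, (ε = 1 ∨ ε = -1) ∧
      (ZMod.unitOfCoprime c hC * (ZMod.unitOfCoprime d hD)⁻¹) ^ r *
      (ZMod.unitOfCoprime a hA * (ZMod.unitOfCoprime b hB)⁻¹) ^ s =
        (if ε = 1 then 1 else -1) := by
      rcases hrel with h | h
      · exact ⟨1, Or.inl rfl, by rw [h]; simp⟩
      · exact ⟨-1, Or.inr rfl, by rw [h]; simp⟩
    obtain ⟨ε, hε, hr⟩ := hrel'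
    rcases le_total 0 r with hr0 | hr0
    · obtain ⟨r0, rfl⟩ := Int.eq_ofNat_of_zero_le hr0
      refine ⟨r0, s, ?_, ?_, ε, hε, ?_⟩
      · rcases hrs with h | h
        · left; exact_mod_cast h
        · right; exact h
      · simpa using hle
      · simpa using hr
    · obtain ⟨r0, hr0'⟩ := Int.eq_ofNat_of_zero_le (show 0 ≤ -r by omega)
      have hr1 : r = -(r0 : ℤ) := by omega
      subst hr1
      refine ⟨r0, -s, ?_, ?_, ε, hε, ?_⟩
      · rcases hrs with h | h
        · left; intro h0; apply h; rw [h0]; simp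
        · right; simpa using h
      · simpa using hle
      · have h5 := congrArg (fun x => x⁻¹) hr
        simp only [mul_inv, ← zpow_neg, neg_neg, zpow_natCast] at h5
        rw [h5]
        rcases hε with rfl | rfl <;> simp
  obtain ⟨r, s, hrs, hle, ε, hε, hrel⟩ := hwlog
  rcases le_total 0 s with hs0 | hs0
  · obtain ⟨s0, rfl⟩ := Int.eq_ofNat_of_zero_le hs0
    refine ⟨r, s0, ?_, ?_, ε, hε, Or.inl ?_⟩
    · rcases hrs with h | h
      · left; exact h
      · right; exact_mod_cast h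
    · have : ((r : ℤ)) + |((s0 : ℕ) : ℤ)| = ((r + s0 : ℕ) : ℤ) := by simp
      rw [this] at hle
      exact_mod_cast hle
    · exact dvd_of_relation hA hB hC hD hε (by simpa using hrel)
  · obtain ⟨s0, hs0'⟩ := Int.eq_ofNat_of_zero_le (show 0 ≤ -s by omega)
    have hs1 : s = -(s0 : ℤ) := by omega
    subst hs1
    refine ⟨r, s0, ?_, ?_, ε, hε, Or.inr ?_⟩
    · rcases hrs with h | h
      · left; exact h
      · right; intro h0; apply h; rw [h0]; simp
    · have : ((r : ℤ)) + |(-(s0 : ℤ))| = ((r + s0 : ℕ) : ℤ) := by simp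
      rw [this] at hle
      exact_mod_cast hle
    · refine dvd_of_relation hB hA hC hD hε ?_
      rw [← hrel, zpow_neg, zpow_natCast, ← inv_pow, mul_inv, inv_inv]
      rw [mul_comm (ZMod.unitOfCoprime b hB)]

/-- Two different coprime representations are multiplicatively independent. -/
lemma ne_of_indep {k a b c d r s : ℕ} (hk : 0 < k) (ha : 0 < a) (hb : 0 < b) (hc : 0 < c)
    (hd : 0 < d) (hab : a.Coprime b) (hcd : c.Coprime d)
    (h : a ^ k + b ^ k = c ^ k + d ^ k) (hne : ¬ (a = d ∧ b = c))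
    (hrs : r ≠ 0 ∨ s ≠ 0) : c ^ r * a ^ s ≠ d ^ r * b ^ s := by
  intro heq
  have e1 : a ^ s = d ^ r := by
    apply Nat.dvd_antisymm
    · have h1 : a ^ s ∣ d ^ r * b ^ s := heq ▸ dvd_mul_left _ _
      exact (Nat.Coprime.pow s s hab).dvd_of_dvd_mul_right h1
    · have h1 : d ^ r ∣ c ^ r * a ^ s := heq ▸ dvd_mul_right _ _
      exact (Nat.Coprime.pow r r hcd.symm).dvd_of_dvd_mul_left h1
  have e2 : c ^ r = b ^ s := by
    rw [e1, mul_comm (c ^ r)] at heq
    exact Nat.eq_of_mul_eq_mul_left (pow_pos hd r) heq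
  -- the larger exponent gives an inequality of the bases
  have key : ∀ {x y u v m n : ℕ}, 0 < x → 0 < u → x ^ m = y ^ n → v ^ m = u ^ n → n ≤ m →
      m ≠ 0 → 0 < y → 0 < v → (n = 0 → x = 1 ∧ v = 1) ∧ (n ≠ 0 → x ≤ y ∧ v ≤ u) := by
    intro x y u v m n hx hu hxy hvu hnm hm hy hv
    constructor
    · rintro rfl
      rw [pow_zero] at hxy hvu
      exact ⟨(Nat.pow_eq_one.mp hxy).resolve_right hm, (Nat.pow_eq_one.mp hvu).resolve_right hm⟩
    · intro hn
      constructor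
      · by_contra hlt
        push Not at hlt
        have h1 : y ^ n < x ^ n := Nat.pow_lt_pow_left hlt hn
        have h2 : x ^ n ≤ x ^ m := Nat.pow_le_pow_right hx hnm
        omega
      · by_contra hlt
        push Not at hlt
        have h1 : u ^ n < v ^ n := Nat.pow_lt_pow_left hlt hn
        have h2 : v ^ n ≤ v ^ m := Nat.pow_le_pow_right hv hnm
        omega
  have mono : ∀ {x y : ℕ}, x ≤ y → x ^ k ≤ y ^ k := fun h => Nat.pow_le_pow_left h k
  have inj : ∀ {x y : ℕ}, x ^ k = y ^ k → x = y := fun h => Nat.pow_left_injective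
    (show k ≠ 0 by omega) h
  have one_of : ∀ {x y : ℕ}, 0 < x → 0 < y → x ^ k + y ^ k = 1 + 1 → x = 1 ∧ y = 1 := by
    intro x y hx hy hxy
    have h1 : 1 ≤ x ^ k := Nat.one_le_pow _ _ hx
    have h2 : 1 ≤ y ^ k := Nat.one_le_pow _ _ hy
    have h3 : x ^ k = 1 ^ k := by rw [one_pow]; omega
    have h4 : y ^ k = 1 ^ k := by rw [one_pow]; omega
    exact ⟨inj h3, inj h4⟩
  rcases le_total r s with hle | hle
  · have hs : s ≠ 0 := by rcases hrs with h1 | h1 <;> omega
    obtain ⟨g1, g2⟩ := key ha hc e1 e2.symm hle hs hd hb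
    by_cases hr : r = 0
    · obtain ⟨rfl, rfl⟩ := g1 hr
      rw [one_pow] at h
      obtain ⟨rfl, rfl⟩ := one_of hc hd h.symm
      exact hne ⟨rfl, rfl⟩
    · obtain ⟨g3, g4⟩ := g2 hr
      have h5 := mono g3
      have h6 := mono g4
      exact hne ⟨inj (by omega), inj (by omega)⟩
  · have hr : r ≠ 0 := by rcases hrs with h1 | h1 <;> omega
    obtain ⟨g1, g2⟩ := key hd hb e1.symm e2 hle hr ha hc
    by_cases hs : s = 0
    · obtain ⟨rfl, rfl⟩ := g1 hs
      rw [one_pow] at h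
      obtain ⟨rfl, rfl⟩ := one_of ha hb h
      exact hne ⟨rfl, rfl⟩
    · obtain ⟨g3, g4⟩ := g2 hs
      have h5 := mono g3
      have h6 := mono g4
      exact hne ⟨inj (by omega), inj (by omega)⟩

/-- Size of a nonzero combination divisible by `m`. -/
lemma le_of_dvd_comb {m a b c d r s M T : ℕ} {ε : ℤ} (hε : ε = 1 ∨ ε = -1)
    (hd : 0 < d) (hb : 0 < b) (hne : c ^ r * a ^ s ≠ d ^ r * b ^ s)
    (haM : a ≤ M) (hbM : b ≤ M) (hcM : c ≤ M) (hdM : d ≤ M) (hT : r + s ≤ T)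
    (h : (m : ℤ) ∣ (c : ℤ) ^ r * a ^ s - ε * (d ^ r * b ^ s)) : m ≤ 2 * M ^ T := by
  have hM : 1 ≤ M := le_trans hb hbM
  have hpow : M ^ (r + s) ≤ M ^ T := Nat.pow_le_pow_right hM hT
  have b1 : c ^ r * a ^ s ≤ M ^ T := by
    refine le_trans ?_ hpow
    rw [pow_add]
    exact Nat.mul_le_mul (Nat.pow_le_pow_left hcM r) (Nat.pow_le_pow_left haM s)
  have b2 : d ^ r * b ^ s ≤ M ^ T := by
    refine le_trans ?_ hpow
    rw [pow_add]
    exact Nat.mul_le_mul (Nat.pow_le_pow_left hdM r) (Nat.pow_le_pow_left hbM s)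
  have p2 : 0 < d ^ r * b ^ s := by positivity
  have hcast : (c : ℤ) ^ r * a ^ s - ε * (d ^ r * b ^ s) =
      ((c ^ r * a ^ s : ℕ) : ℤ) - ε * ((d ^ r * b ^ s : ℕ) : ℤ) := by push_cast; ring
  rw [hcast] at h
  generalize c ^ r * a ^ s = x at *
  generalize d ^ r * b ^ s = y at *
  have hnz : (x : ℤ) - ε * y ≠ 0 := by
    rcases hε with rfl | rfl
    · intro h0; apply hne; omega
    · intro h0; omega
  have h1 := Int.natAbs_dvd_natAbs.mpr h
  have h2 := Nat.le_of_dvd (Int.natAbs_pos.mpr hnz) h1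
  simp only [Int.natAbs_natCast] at h2
  have h3 : ((x : ℤ) - ε * y).natAbs ≤ x + y := by
    rcases hε with rfl | rfl <;> omega
  omega

/-- Every prime power dividing an integer with two essentially different primitive
representations is small. -/
lemma prime_pow_le {q e k a b c d M : ℕ} (hq : q.Prime) (hk : 2 ≤ k)
    (ha : 0 < a) (hb : 0 < b) (hc : 0 < c) (hd : 0 < d)
    (haM : a ≤ M) (hbM : b ≤ M) (hcM : c ≤ M) (hdM : d ≤ M)
    (hab : a.Coprime b) (hcd : c.Coprime d)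
    (h : a ^ k + b ^ k = c ^ k + d ^ k) (hne1 : ¬ (a = d ∧ b = c)) (hne2 : ¬ (a = c ∧ b = d))
    (hdvd : q ^ e ∣ a ^ k + b ^ k) :
    q ^ e ≤ 2 * M ^ Nat.sqrt (2 * Nat.gcd k (Nat.totient (q ^ e))) := by
  have hM : 1 ≤ M := le_trans hb hbM
  have hg : 0 < Nat.gcd k (Nat.totient (q ^ e)) := Nat.gcd_pos_of_pos_left _ (by omega)
  have hT : 1 ≤ Nat.sqrt (2 * Nat.gcd k (Nat.totient (q ^ e))) := by
    rw [Nat.le_sqrt]; omega
  have hMT : M ≤ M ^ Nat.sqrt (2 * Nat.gcd k (Nat.totient (q ^ e))) := by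
    calc M = M ^ 1 := (pow_one M).symm
      _ ≤ _ := Nat.pow_le_pow_right hM hT
  rcases Nat.eq_zero_or_pos e with rfl | he
  · have h0 : 0 < M ^ Nat.sqrt (2 * Nat.gcd k (Nat.totient (q ^ 0))) := by positivity
    generalize M ^ Nat.sqrt (2 * Nat.gcd k (Nat.totient (q ^ 0))) = w at *
    rw [pow_zero]; omega
  by_cases hq2 : q = 2
  · subst hq2
    suffices hs : 2 ^ e ∣ a + b by
      have := Nat.le_of_dvd (by omega) hs
      omega
    -- both are odd
    have h2 : 2 ∣ a ^ k + b ^ k := (dvd_pow_self 2 (by omega)).trans hdvd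
    have hodd : a % 2 = 1 ∧ b % 2 = 1 := by
      have hpar : (a ^ k + b ^ k) % 2 = (a + b) % 2 := by
        rcases Nat.mod_two_eq_zero_or_one a with h3 | h3 <;>
        rcases Nat.mod_two_eq_zero_or_one b with h4 | h4 <;>
        simp [Nat.add_mod, Nat.pow_mod, h3, h4, (show k ≠ 0 by omega)]
      have hs : (a + b) % 2 = 0 := by omega
      rcases Nat.mod_two_eq_zero_or_one a with h3 | h3
      · exfalso
        have h4 : b % 2 = 0 := by omega
        have := Nat.dvd_gcd (Nat.dvd_of_mod_eq_zero h3) (Nat.dvd_of_mod_eq_zero h4)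
        rw [hab] at this
        omega
      · exact ⟨h3, by omega⟩
    rcases Nat.even_or_odd k with hev | hod
    · -- e = 1
      obtain ⟨m, rfl⟩ := hev
      have he1 : e = 1 := by
        by_contra he1
        have h4 : 2 ^ 2 ∣ a ^ (m + m) + b ^ (m + m) :=
          (pow_dvd_pow 2 (show 2 ≤ e by omega)).trans hdvd
        have h5 : (a ^ (m + m)) % 4 = 1 := by
          rw [← two_mul, pow_mul, Nat.pow_mod, Nat.pow_mod a 2 4]
          have : a % 4 = 1 ∨ a % 4 = 3 := by omega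
          rcases this with h6 | h6 <;> simp [h6]
        have h6 : (b ^ (m + m)) % 4 = 1 := by
          rw [← two_mul, pow_mul, Nat.pow_mod, Nat.pow_mod b 2 4]
          have : b % 4 = 1 ∨ b % 4 = 3 := by omega
          rcases this with h6 | h6 <;> simp [h6]
        omega
      subst he1
      rw [pow_one]
      omega
    · -- odd exponent
      have hz : (2 : ℤ) ^ e ∣ (a : ℤ) ^ k - (-(b : ℤ)) ^ k := by
        rw [hod.neg_pow, sub_neg_eq_add]
        exact_mod_cast hdvd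
      have hp2 : Prime (2 : ℤ) := Int.prime_two
      have hxy : (2 : ℤ) ∣ (a : ℤ) - (-(b : ℤ)) := by omega
      have hx : ¬ (2 : ℤ) ∣ (a : ℤ) := by omega
      have hkn : ¬ (2 : ℤ) ∣ ((k : ℕ) : ℤ) := by
        obtain ⟨m, hm⟩ := hod
        omega
      have hm := emultiplicity_pow_sub_pow_of_prime hp2 hxy hx (n := k) hkn
      rw [pow_dvd_iff_le_emultiplicity, hm, ← pow_dvd_iff_le_emultiplicity, sub_neg_eq_add] at hz
      exact_mod_cast hz
  · have hdvd2 : q ^ e ∣ c ^ k + d ^ k := by rw [← h]; exact hdvd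
    obtain ⟨r, s, hrs, hle, ε, hε, hcase⟩ :=
      exists_dvd hq hq2 he (by omega) hab hcd hdvd hdvd2
    rcases hcase with h1 | h1
    · exact le_of_dvd_comb hε hd hb
        (ne_of_indep (by omega) ha hb hc hd hab hcd h hne1 hrs) haM hbM hcM hdM hle h1
    · exact le_of_dvd_comb hε hd ha
        (ne_of_indep (k := k) (by omega) hb ha hc hd hab.symm hcd (by rw [add_comm]; exact h)
          (fun h2 => hne2 ⟨h2.2, h2.1⟩) hrs) hbM haM hcM hdM hle h1

/-- Let `k ≥ 2` and let `N = a ^ k + b ^ k = c ^ k + d ^ k` be two essentially different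
primitive representations (`gcd(a, b) = gcd(c, d) = 1`), with largest base `M`.  Then every
prime power `q ^ e` dividing `N` is at most `2 * M ^ ⌊√(2 gcd(k, φ(q ^ e)))⌋`, and `N` has more
than `k / (⌊√(2k)⌋ + 1)` distinct prime divisors. -/
theorem result {k a b c d : ℕ} (hk : 2 ≤ k) (ha : 0 < a) (hb : 0 < b) (hc : 0 < c)
    (hd : 0 < d) (hab : a.Coprime b) (hcd : c.Coprime d)
    (h : a ^ k + b ^ k = c ^ k + d ^ k) (hne : ({a, b} : Set ℕ) ≠ {c, d}) :
    (∀ q e : ℕ, q.Prime → q ^ e ∣ a ^ k + b ^ k →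
      q ^ e ≤ 2 * (max (max a b) (max c d)) ^
        Nat.sqrt (2 * Nat.gcd k (Nat.totient (q ^ e)))) ∧
    k < (Nat.sqrt (2 * k) + 1) * (a ^ k + b ^ k).primeFactors.card := by
  have hne2 : ¬ (a = c ∧ b = d) := by
    rintro ⟨rfl, rfl⟩; exact hne rfl
  have hne1 : ¬ (a = d ∧ b = c) := by
    rintro ⟨rfl, rfl⟩; exact hne (Set.pair_comm _ _)
  set M := max (max a b) (max c d) with hM
  have haM : a ≤ M := le_trans (le_max_left a b) (le_max_left _ _)
  have hbM : b ≤ M := le_trans (le_max_right a b) (le_max_left _ _)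
  have hcM : c ≤ M := le_trans (le_max_left c d) (le_max_right _ _)
  have hdM : d ≤ M := le_trans (le_max_right c d) (le_max_right _ _)
  have main : ∀ q e : ℕ, q.Prime → q ^ e ∣ a ^ k + b ^ k →
      q ^ e ≤ 2 * M ^ Nat.sqrt (2 * Nat.gcd k (Nat.totient (q ^ e))) := fun q e hq hdvd =>
    prime_pow_le hq hk ha hb hc hd haM hbM hcM hdM hab hcd h hne1 hne2 hdvd
  refine ⟨main, ?_⟩
  have hM2 : 2 ≤ M := by
    by_contra hlt
    apply hne2
    constructor <;> omega
  have hN : M ^ k < a ^ k + b ^ k := by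
    have pa : 0 < a ^ k := by positivity
    have pb : 0 < b ^ k := by positivity
    have pc : 0 < c ^ k := by positivity
    have pd : 0 < d ^ k := by positivity
    have : M = a ∨ M = b ∨ M = c ∨ M = d := by omega
    rcases this with h1 | h1 | h1 | h1 <;> rw [h1] <;> omega
  have hN0 : a ^ k + b ^ k ≠ 0 := by
    have pa : 0 < a ^ k := by positivity
    omega
  have hprod : a ^ k + b ^ k ≤
      (2 * M ^ Nat.sqrt (2 * k)) ^ (a ^ k + b ^ k).primeFactors.card := by
    conv_lhs => rw [← Nat.prod_factorization_pow_eq_self hN0]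
    rw [Finsupp.prod, Nat.support_factorization]
    apply Finset.prod_le_pow_card
    intro q hq
    refine le_trans (main q _ (Nat.prime_of_mem_primeFactors hq) (Nat.ordProj_dvd _ _)) ?_
    apply Nat.mul_le_mul_left
    apply Nat.pow_le_pow_right (by omega)
    apply Nat.sqrt_le_sqrt
    apply Nat.mul_le_mul_left
    exact Nat.gcd_le_left _ (by omega)
  have hlt : M ^ k < M ^ ((Nat.sqrt (2 * k) + 1) * (a ^ k + b ^ k).primeFactors.card) := by
    refine lt_of_lt_of_le hN (le_trans hprod ?_)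
    rw [pow_mul]
    apply Nat.pow_le_pow_left
    rw [pow_succ, mul_comm]
    exact Nat.mul_le_mul_left _ hM2
  exact (Nat.pow_lt_pow_iff_right (by omega)).mp hlt

end Pool.Agent.Results.MP_f8ddab_nt.PrimePowers
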